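import Mathlib

set_option autoImplicit false

namespace Pool.Agent.H286Z.Trans

/-- A subset `Y` of the symmetric group on `n` points is `k`-transitive: there is a positive
integer `r` such that for any two `k`-tuples `α`, `β` of pairwise distinct points exactly `r`
elements of `Y` send `α` to `β`. -/
def IsKTransitive (n k : ℕ) (Y : Set (Equiv.Perm (Fin n))) : Prop :=
  ∃ r : ℕ, 0 < r ∧ ∀ α β : Fin k → Fin n, Function.Injective α → Function.Injective β →
    {y ∈ Y | ∀ i, y (α i) = β i}.ncard = r

end Pool.Agent.H286Z.Trans
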