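import Pool.Agent.H286Z.Trans.Defs

set_option autoImplicit false

namespace Pool.Agent.H286Z.Trans

open Equiv

theorem card_const {n k : ℕ} (α β γ : Fin k → Fin n) (hα : Function.Injective α)
    (hβ : Function.Injective β) (hγ : Function.Injective γ) :
    {y : Perm (Fin n) | ∀ i, y (α i) = β i}.ncard =
      {y : Perm (Fin n) | ∀ i, y (γ i) = γ i}.ncard := by
  obtain ⟨σ, hσ⟩ := Perm.exists_extending_pair _ _ hγ hα
  obtain ⟨ρ, hρ⟩ := Perm.exists_extending_pair _ _ hβ hγ
  refine Set.ncard_congr (fun y _ => ρ * y * σ) ?_ ?_ ?_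
  · intro y hy i
    simp only [Perm.mul_apply, hσ, hy i, hρ]
  · intro a b _ _ h
    exact mul_left_cancel (mul_right_cancel h)
  · intro y hy
    refine ⟨ρ⁻¹ * y * σ⁻¹, fun i => ?_, by group⟩
    apply ρ.injective
    rw [← hσ i, hρ]
    simp [hy i]

theorem half {n k : ℕ} (Y : Set (Perm (Fin n))) (α β : Fin k → Fin n) (τ : Perm (Fin n))
    (hτ : ∀ i, τ (α i) = α i) (hττ : τ * τ = 1) (hY : ∀ y, y * τ ∈ Y ↔ y ∉ Y) :
    2 * {y ∈ Y | ∀ i, y (α i) = β i}.ncard = {y : Perm (Fin n) | ∀ i, y (α i) = β i}.ncard := by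
  have h1 : {y ∈ Y | ∀ i, y (α i) = β i}.ncard = {y ∈ Yᶜ | ∀ i, y (α i) = β i}.ncard := by
    refine Set.ncard_congr (fun y _ => y * τ) ?_ ?_ ?_
    · intro y hy
      refine ⟨fun h => (hY y).1 h hy.1, fun i => ?_⟩
      simp only [Perm.mul_apply, hτ, hy.2 i]
    · intro a b _ _ h
      exact mul_right_cancel h
    · intro y hy
      refine ⟨y * τ, ⟨(hY y).2 hy.1, fun i => ?_⟩, by rw [mul_assoc, hττ, mul_one]⟩
      simp only [Perm.mul_apply, hτ, hy.2 i]
  have h2 : {y : Perm (Fin n) | ∀ i, y (α i) = β i} =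
      {y ∈ Y | ∀ i, y (α i) = β i} ∪ {y ∈ Yᶜ | ∀ i, y (α i) = β i} := by
    ext y
    by_cases h : y ∈ Y <;> simp [h]
  rw [h2, Set.ncard_union_eq _ (Set.toFinite _) (Set.toFinite _), ← h1, two_mul]
  rw [Set.disjoint_left]
  intro y hy hy'
  exact hy'.1 hy.1

theorem miss {n k : ℕ} (α : Fin k → Fin n) : ∃ j < k + 1, ∀ i, (α i).1 / 2 ≠ j := by
  by_contra h
  push Not at h
  have hsub : Finset.range (k + 1) ⊆ Finset.univ.image (fun i => (α i).1 / 2) := by
    intro j hj
    obtain ⟨i, hi⟩ := h j (Finset.mem_range.1 hj)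
    exact Finset.mem_image.2 ⟨i, Finset.mem_univ _, hi⟩
  have := (Finset.card_le_card hsub).trans Finset.card_image_le
  simp at this

theorem main (n : ℕ) (hn : 4 ≤ n) : ∃ Y : Set (Perm (Fin n)), IsKTransitive n ((n - 2) / 2) Y ∧
    Y ≠ alternatingGroup (Fin n) ∧ Y ≠ Set.univ ∧
    Y ≠ (alternatingGroup (Fin n) : Set (Perm (Fin n)))ᶜ := by
  let p0 : Fin n := ⟨0, by omega⟩
  let p1 : Fin n := ⟨1, by omega⟩
  let p2 : Fin n := ⟨2, by omega⟩
  have h01 : p0 ≠ p1 := by simp [p0, p1]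
  have h12 : p1 ≠ p2 := by simp [p1, p2]
  let Y : Set (Perm (Fin n)) := {y | ((y p0).1 < 2 ∧ (y p1).1 < 2) ↔ Perm.sign y = -1}
  have key : ∀ α β : Fin ((n - 2) / 2) → Fin n,
      2 * {y ∈ Y | ∀ i, y (α i) = β i}.ncard =
        {y : Perm (Fin n) | ∀ i, y (α i) = β i}.ncard := by
    intro α β
    obtain ⟨j, hj, hα⟩ := miss α
    let a : Fin n := ⟨2 * j, by omega⟩
    let b : Fin n := ⟨2 * j + 1, by omega⟩
    have hab : a ≠ b := by simp [a, b]
    refine half Y α β (swap a b) (fun i => swap_apply_of_ne_of_ne ?_ ?_) (swap_mul_self a b) ?_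
    · intro h
      apply hα i
      rw [h]; simp [a]
    · intro h
      apply hα i
      rw [h]; simp only [b]; omega
    · intro y
      have hs : Perm.sign (y * swap a b) = -1 ↔ ¬ Perm.sign y = -1 := by
        rw [Perm.sign_mul, Perm.sign_swap hab]
        rcases Int.units_eq_one_or (Perm.sign y) with h | h <;> simp [h]
      have hz : (((y * swap a b) p0).1 < 2 ∧ ((y * swap a b) p1).1 < 2) ↔
          ((y p0).1 < 2 ∧ (y p1).1 < 2) := by
        by_cases hj0 : j = 0
        · have ha : a = p0 := by simp [a, p0, hj0]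
          have hb : b = p1 := by simp [b, p1, hj0]
          rw [ha, hb]
          simp [and_comm]
        · have e0 : swap a b p0 = p0 := swap_apply_of_ne_of_ne
            (by simp only [a, p0, ne_eq, Fin.mk.injEq]; omega)
            (by simp only [b, p0, ne_eq, Fin.mk.injEq]; omega)
          have e1 : swap a b p1 = p1 := swap_apply_of_ne_of_ne
            (by simp only [a, p1, ne_eq, Fin.mk.injEq]; omega)
            (by simp only [b, p1, ne_eq, Fin.mk.injEq]; omega)
          simp only [Perm.mul_apply, e0, e1]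
      simp only [Y, Set.mem_ofPred_eq]
      rw [hs, hz]
      tauto
  let γ : Fin ((n - 2) / 2) → Fin n := Fin.castLE (by omega)
  have hγ : Function.Injective γ := Fin.castLE_injective _
  have hpos : 0 < {y : Perm (Fin n) | ∀ i, y (γ i) = γ i}.ncard :=
    (Set.ncard_pos (Set.toFinite _)).2 ⟨1, fun _ => rfl⟩
  refine ⟨Y, ⟨{y ∈ Y | ∀ i, y (γ i) = γ i}.ncard, ?_, fun α β hα hβ => ?_⟩, ?_, ?_, ?_⟩
  · have := key γ γ
    omega
  · have h1 := key α β
    have h2 := key γ γ
    have h3 := card_const α β γ hα hβ hγ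
    omega
  · intro h
    have h1 : swap p0 p1 ∈ Y := by
      simp [Y, Perm.sign_swap h01, p0, p1]
    rw [h, SetLike.mem_coe, Perm.mem_alternatingGroup, Perm.sign_swap h01] at h1
    exact absurd h1 (by decide)
  · intro h
    have h1 : (1 : Perm (Fin n)) ∈ Y := by rw [h]; trivial
    simp [Y, p0, p1] at h1
  · intro h
    have h1 : swap p1 p2 ∈ Y := by
      rw [h, Set.mem_compl_iff, SetLike.mem_coe, Perm.mem_alternatingGroup, Perm.sign_swap h12]
      decide
    have h2 := h1.2 (Perm.sign_swap h12)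
    simp [p2] at h2

end Pool.Agent.H286Z.Trans
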